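import Pool.Agent.H52.MQ.ASL

/-!
The recurrence coefficients of the Minkowski question mark measure converge: `a n → 1/4`, so
`liminf a n ^ 2 = limsup a n ^ 2 = 1/16`.

Definitions (files `Pool/Agent/H52/MQ/Defs.lean`, `Pool/Agent/H52/MQ/QMB.lean`):
* `qmark x` is the question mark function, by the alternating series over the continued fraction
  digits of `x`;
* `IsMink μ`: `μ` is a probability measure with `μ [0, x] = qmark x` for `0 ≤ x ≤ 1`;
* `IsJacobi μ p a b`: `p n` has degree `n` and positive leading coefficient, the `p n` are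
  orthonormal for `μ`, `0 < a (n+1)`, and `x p_n = a_(n+1) p_(n+1) + b_n p_n + a_n p_(n-1)`.

Idea of the proof: `a n ^ 2` is a variance in the orthogonal polynomial ensemble; its local versions
are Moebius covariant, which compares level `n` near a point of a Stern-Brocot cell with a lower
level of one fixed comparison measure on the unit circle, whose Verblunsky coefficients satisfy
`∑_(k<N) |α_k|² ≤ C (log N)²`; averaging over many cells with well separated levels (integer
quartic polynomials) shows that the local variances are almost those of the free case.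
-/

namespace Pool.Agent.Results.MP_935a4b_an.NevaiLimit

open MeasureTheory Set Polynomial Filter
open scoped Topology

theorem result :
    (∃ μ : Measure ℝ, Pool.H52.MQ.IsMink μ) ∧
    ∀ μ : Measure ℝ, Pool.H52.MQ.IsMink μ →
      (∃ (p : ℕ → ℝ[X]) (a b : ℕ → ℝ), Pool.H52.MQ.IsJacobi μ p a b) ∧
      ∀ (p : ℕ → ℝ[X]) (a b : ℕ → ℝ), Pool.H52.MQ.IsJacobi μ p a b →
        Tendsto a atTop (𝓝 (1 / 4)) ∧
        liminf (fun n => a n ^ 2) atTop = 1 / 16 ∧
        limsup (fun n => a n ^ 2) atTop = 1 / 16 :=
  ⟨Pool.H52.MQ.qmb_exists, fun _ hμ => Pool.H52.MQ.nevai_mink hμ⟩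

end Pool.Agent.Results.MP_935a4b_an.NevaiLimit
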